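import Pool.Agent.H15.FB5

namespace Pool.Agent.Results.MP_6ec1b7_co.Spine

/-- Every poset whose antichains have at most `w` elements has a spine. -/
theorem result (w : ℕ) (P : Type) [PartialOrder P]
    (hw : ∀ A : Set P, IsAntichain (· ≤ ·) A → A.encard ≤ (w : ℕ∞)) :
    ∃ C : Set P, IsChain (· ≤ ·) C ∧ ∃ D : Set (Set P), Setoid.IsPartition D ∧
      (∀ A ∈ D, IsAntichain (· ≤ ·) A) ∧ (∀ A ∈ D, (C ∩ A).Nonempty) := by
  obtain ⟨C, h1, D, h2, h3, h4⟩ := Pool.Agent.H15.FB.spine P ⟨w, hw⟩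
  exact ⟨C, h1, D, h2, h3, fun A hA => Set.inter_comm A C ▸ h4 A hA⟩

end Pool.Agent.Results.MP_6ec1b7_co.Spine
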